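import Pool.Agent.MP_096971_nt.Proof

namespace Pool.Agent.Results.MP_096971_nt.Unbounded

open Pool.Agent.MP_096971_nt

/-- The number of cycles of the base-`b` elated function is unbounded in `b`. -/
theorem result : ∀ M : ℕ, ∃ b : ℕ, 2 ≤ b ∧ (cycles b).Finite ∧ M < (cycles b).ncard :=
  main

end Pool.Agent.Results.MP_096971_nt.Unbounded
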